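import Pool.Agent.Y992.HL.Stm

set_option autoImplicit false

/-! Project HL: the structure of the branches from near independence. -/

namespace Pool.Agent.Y275.HL

open Finset Pool.Agent.H983R2.GC Pool.Agent.W341.UG Pool.Agent.Y992.HL

section

variable {V C : Type} [Fintype V] [DecidableEq V] [Fintype C] [DecidableEq C]

omit [Fintype V] [DecidableEq V] in
theorem mem_nb' {G : SimpleGraph V} {R : Finset V} {v w : V} :
    w ∈ nb G R v ↔ w ∈ R ∧ G.Adj v w := by
  classical
  unfold nb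
  simp only [Finset.mem_filter]

omit [DecidableEq V] in
theorem nb_card_le {G : SimpleGraph V} {Δ : ℕ} (hΔ : ∀ w, (nb G univ w).card ≤ Δ)
    (R : Finset V) (v : V) : (nb G R v).card ≤ Δ := by
  refine (Finset.card_le_card ?_).trans (hΔ v)
  intro y hy
  rw [mem_nb'] at hy ⊢
  exact ⟨mem_univ _, hy.2⟩

theorem EE_add' (G : SimpleGraph V) (c0 : C) (R : Finset V) (L : V → Finset C)
    (F H : (V → C) → ℝ) :
    EE G c0 R L (fun σ => F σ + H σ) = EE G c0 R L F + EE G c0 R L H := by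
  unfold EE
  rw [← add_div, Finset.sum_add_distrib]

/-- the bound -/
noncomputable def d0 (B k s : ℕ) (ε A : ℝ) : ℝ :=
  ((B : ℝ) * ((k : ℝ) + 2) / s) * (((k : ℝ) + 1) * (2 + 1 / ε) ^ (k + 1)) * (1 + A)

theorem ni_apply (hN : S_NI) (G : SimpleGraph V) (D : V → V → ℕ) (c0 : C)
    (s Δ N k B m : ℕ) (ε A : ℝ) (hs : 1 ≤ s) (hε : 0 < ε) (hA : 0 ≤ A)
    (hΔ : ∀ w, (nb G univ w).card ≤ Δ) (hεs : ε * (Δ : ℝ) ≤ s) (hBs : B * (k + 2) ≤ s)
    (hI : IBD G D c0 s N 0 A) (hm : m ≤ k + 1) (h : V) (R : Finset V) (hRN : R.card ≤ N)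
    (hh : h ∉ R) (L : V → Finset C) (b c : C) (t : V → C → ℝ) (W : Finset V)
    (hSl : Sl G s R L) (hSlP : SlP G s R (nb G R h) L) (ht : Osc t) (U : ℕ → Finset V)
    (hU0 : U 0 = ∅) (hUR : ∀ i, U i ⊆ R)
    (hind : ∀ i, 1 ≤ i → i ≤ m → ∀ x ∈ U i, ∀ y ∈ U i, ¬ G.Adj x y)
    (hcard : ∀ i, 1 ≤ i → i ≤ m → ∀ x ∈ insert h R, x ∉ U (i - 1) →
      (nb G (U i) x).card ≤ B * (k + 2))
    (hW : W ⊆ U m) :
    |EE G c0 R (era L (nb G R h) b) (adf W t) - EE G c0 R (era L (nb G R h) c) (adf W t)| ≤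
      d0 B k s ε A := by
  have hs' : (0 : ℝ) < s := by exact_mod_cast hs
  have hβ0 : (0 : ℝ) ≤ (B : ℝ) * ((k : ℝ) + 2) / s := by positivity
  have hβ1 : (B : ℝ) * ((k : ℝ) + 2) / s ≤ 1 := by
    rw [div_le_one hs']
    exact_mod_cast hBs
  have hβs : (B : ℝ) * ((k : ℝ) + 2) / s * s = (B : ℝ) * ((k : ℝ) + 2) := by
    field_simp
  have hX0 : (0 : ℝ) ≤ 1 / ε := by positivity
  have key := hN V C G c0 s m R L h b c U W t ((B : ℝ) * ((k : ℝ) + 2) / s) (1 / ε) A hs hh hSl
    hSlP hU0 hUR hind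
    (by
      intro i h1 h2 x hx hxU
      rw [hβs]
      exact_mod_cast hcard i h1 h2 x hx hxU)
    (by
      intro x _
      have h1 : ((nb G R x).card : ℝ) ≤ Δ := by exact_mod_cast nb_card_le hΔ R x
      have h2 : (Δ : ℝ) ≤ 1 / ε * s := by
        rw [one_div, ← div_eq_inv_mul, le_div_iff₀ hε]
        linarith
      exact h1.trans h2)
    hβ0 hβ1 hX0 hA hW ht
    (by
      intro F hF
      exact hI R L h b c F R hRN hh hSl hSlP (subset_refl R) hF (fun w _ => Nat.zero_le _))
  refine key.trans ?_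
  unfold d0
  have h1 : (m : ℝ) ≤ (k : ℝ) + 1 := by exact_mod_cast hm
  have h2 : (2 + 1 / ε) ^ m ≤ (2 + 1 / ε) ^ (k + 1) :=
    pow_le_pow_right₀ (by linarith) hm
  have h3 : (m : ℝ) * (2 + 1 / ε) ^ m ≤ ((k : ℝ) + 1) * (2 + 1 / ε) ^ (k + 1) :=
    mul_le_mul h1 h2 (by positivity) (by positivity)
  exact mul_le_mul_of_nonneg_right (mul_le_mul_of_nonneg_left h3 hβ0) (by linarith)

theorem claimA (hN : S_NI) (G : SimpleGraph V) (D : V → V → ℕ) (c0 : C)
    (s Δ N k K B m : ℕ) (ε A : ℝ) (hs : 1 ≤ s) (hε : 0 < ε) (hA : 0 ≤ A) (hD : GD G D B K)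
    (hk : k + 2 ≤ K)
    (hΔ : ∀ w, (nb G univ w).card ≤ Δ) (hεs : ε * (Δ : ℝ) ≤ s) (hBs : B * (k + 2) ≤ s)
    (hI : IBD G D c0 s N 0 A) (hm : m ≤ k + 1) (v h : V) (hvh : G.Adj v h)
    (R : Finset V) (hRN : R.card ≤ N) (hv : v ∉ R)
    (hh : h ∉ R) (L : V → Finset C) (b c : C) (t : V → C → ℝ) (W : Finset V)
    (hSl : Sl G s R L) (hSlP : SlP G s R (nb G R h) L) (ht : Osc t) (hWR : W ⊆ R)
    (hW : ∀ y ∈ W, D v y = m ∧ m ≤ D h y) :
    |EE G c0 R (era L (nb G R h) b) (adf W t) - EE G c0 R (era L (nb G R h) c) (adf W t)| ≤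
      d0 B k s ε A := by
  refine ni_apply hN G D c0 s Δ N k B m ε A hs hε hA hΔ hεs hBs hI hm h R hRN hh L b c t W
    hSl hSlP ht (fun i => R.filter (fun y => D v y = i ∧ i ≤ D h y)) ?_
    (fun i => Finset.filter_subset _ _) ?_ ?_ ?_
  · rw [Finset.filter_eq_empty_iff]
    rintro y hy ⟨h1, -⟩
    exact hv (((hD.zero v y).1 h1) ▸ hy)
  · intro i hi1 hi2 x hx y hy hxy
    have hx' := (Finset.mem_filter.1 hx).2.1
    have hy' := (Finset.mem_filter.1 hy).2.1
    exact hD.ne v x y (by omega) hxy (by omega)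
  · intro i hi1 hi2 x hx hxU
    rcases Finset.eq_empty_or_nonempty
      (nb G (R.filter (fun y => D v y = i ∧ i ≤ D h y)) x) with he | ⟨y, hy⟩
    · rw [he]
      simp
    · rw [mem_nb', Finset.mem_filter] at hy
      obtain ⟨⟨hyR, hy1, hy2⟩, hxy⟩ := hy
      have l1 := hD.lip v x y hxy
      have l2 := hD.lip v y x hxy.symm
      have l3 := hD.lip h y x hxy.symm
      by_cases hcase : i ≤ D v x
      · have hb := hD.back v x (by omega)
          (nb G (R.filter (fun y => D v y = i ∧ i ≤ D h y)) x) (by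
            intro z hz
            rw [mem_nb', Finset.mem_filter] at hz
            exact ⟨hz.2, by omega⟩)
        refine hb.trans (Nat.mul_le_mul_left B ?_)
        omega
      · exfalso
        rcases Finset.mem_insert.1 hx with hxh | hxR
        · rw [hxh] at l3 hcase l2
          have hz : D h h = 0 := (hD.zero h h).2 rfl
          have : D v h = 0 := by omega
          have := (hD.zero v h).1 this
          exact hvh.ne this
        · apply hxU
          rw [Finset.mem_filter]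
          exact ⟨hxR, by omega, by omega⟩
  · intro y hy
    rw [Finset.mem_filter]
    exact ⟨hWR hy, hW y hy⟩

theorem claimB (hN : S_NI) (G : SimpleGraph V) (D : V → V → ℕ) (c0 : C)
    (s Δ N k K B : ℕ) (ε A : ℝ) (hs : 1 ≤ s) (hε : 0 < ε) (hA : 0 ≤ A) (hD : GD G D B K)
    (hk : k + 2 ≤ K)
    (hΔ : ∀ w, (nb G univ w).card ≤ Δ) (hεs : ε * (Δ : ℝ) ≤ s) (hBs : B * (k + 2) ≤ s)
    (hI : IBD G D c0 s N 0 A) (v g h : V) (hgh : g ≠ h)
    (R : Finset V) (hRN : R.card ≤ N)
    (hh : h ∉ R) (L : V → Finset C) (b c : C) (t : V → C → ℝ) (W : Finset V)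
    (hSl : Sl G s R L) (hSlP : SlP G s R (nb G R h) L) (ht : Osc t) (hWR : W ⊆ R)
    (hW : ∀ y ∈ W, D v y = k + 1 ∧ D g y = k ∧ D h y = k) :
    |EE G c0 R (era L (nb G R h) b) (adf W t) - EE G c0 R (era L (nb G R h) c) (adf W t)| ≤
      d0 B k s ε A := by
  refine ni_apply hN G D c0 s Δ N k B k ε A hs hε hA hΔ hεs hBs hI (Nat.le_succ k) h R hRN hh
    L b c t W hSl hSlP ht
    (fun i => R.filter (fun y => D v y = i + 1 ∧ D g y = i ∧ D h y = i)) ?_
    (fun i => Finset.filter_subset _ _) ?_ ?_ ?_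
  · rw [Finset.filter_eq_empty_iff]
    rintro y hy ⟨-, h1, h2⟩
    exact hgh (((hD.zero g y).1 h1).trans ((hD.zero h y).1 h2).symm)
  · intro i hi1 hi2 x hx y hy hxy
    have hx' := (Finset.mem_filter.1 hx).2.1
    have hy' := (Finset.mem_filter.1 hy).2.1
    exact hD.ne v x y (by omega) hxy (by omega)
  · intro i hi1 hi2 x hx hxU
    rcases Finset.eq_empty_or_nonempty
      (nb G (R.filter (fun y => D v y = i + 1 ∧ D g y = i ∧ D h y = i)) x) with he | ⟨y, hy⟩
    · rw [he]
      simp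
    · rw [mem_nb', Finset.mem_filter] at hy
      obtain ⟨⟨hyR, hy1, hy2, hy3⟩, hxy⟩ := hy
      have l1 := hD.lip v x y hxy
      have l2 := hD.lip v y x hxy.symm
      have l3 := hD.lip h y x hxy.symm
      have l4 := hD.lip h x y hxy
      have l5 := hD.lip g y x hxy.symm
      have l6 := hD.lip g x y hxy
      have hback : ∀ u : V, D u x ≤ k + 2 →
          (∀ z ∈ nb G (R.filter (fun y => D v y = i + 1 ∧ D g y = i ∧ D h y = i)) x,
            D u z ≤ D u x) →
          (nb G (R.filter (fun y => D v y = i + 1 ∧ D g y = i ∧ D h y = i)) x).card ≤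
            B * (k + 2) := by
        intro u hu hz
        have hb := hD.back u x (by omega)
          (nb G (R.filter (fun y => D v y = i + 1 ∧ D g y = i ∧ D h y = i)) x) (by
            intro z hz'
            refine ⟨?_, hz z hz'⟩
            rw [mem_nb'] at hz'
            exact hz'.2)
        exact hb.trans (Nat.mul_le_mul_left B hu)
      by_cases hcase : i + 1 ≤ D v x
      · refine hback v (by omega) ?_
        intro z hz
        rw [mem_nb', Finset.mem_filter] at hz
        omega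
      by_cases hcase2 : i ≤ D g x
      · refine hback g (by omega) ?_
        intro z hz
        rw [mem_nb', Finset.mem_filter] at hz
        omega
      by_cases hcase3 : i ≤ D h x
      · refine hback h (by omega) ?_
        intro z hz
        rw [mem_nb', Finset.mem_filter] at hz
        omega
      exfalso
      rcases Finset.mem_insert.1 hx with hxh | hxR
      · rw [hxh] at l3 l5 hcase2
        have hz : D h h = 0 := (hD.zero h h).2 rfl
        have h0 : D g h = 0 := by omega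
        exact hgh ((hD.zero g h).1 h0)
      · apply hxU
        rw [Finset.mem_filter]
        exact ⟨hxR, by omega, by omega, by omega⟩
  · intro y hy
    rw [Finset.mem_filter]
    exact ⟨hWR hy, hW y hy⟩

end

/-- The structure of the branches from near independence. -/
theorem t_BR (hN : S_NI) : S_BR := by
  classical
  intro V C _ _ _ _ G D c0 s Δ N k K B ε A hs hε hA hD hk hΔ hεs hBs hI R v W hRN hv hWR hW
  have hvv : D v v = 0 := (hD.zero v v).2 rfl
  have hs' : (0 : ℝ) < s := by exact_mod_cast hs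
  have hd0 : 0 ≤ d0 B k s ε A := by
    unfold d0
    positivity
  have hd2 : d0 B k s ε A ≤ 2 * (((B : ℝ) * ((k : ℝ) + 2) / s) *
      (((k : ℝ) + 1) * (2 + 1 / ε) ^ (k + 1)) * (1 + A)) := by
    have : 2 * (((B : ℝ) * ((k : ℝ) + 2) / s) *
      (((k : ℝ) + 1) * (2 + 1 / ε) ^ (k + 1)) * (1 + A)) = 2 * d0 B k s ε A := rfl
    rw [this]
    linarith
  have hnb1 : ∀ g ∈ nb G R v, D v g = 1 ∧ g ∈ R ∧ G.Adj v g ∧ D g v = 1 := by
    intro g hg
    rw [mem_nb'] at hg
    have h1 := hD.lip v g v hg.2.symm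
    have h2 : D v g ≠ 0 := fun h0 => hg.2.ne ((hD.zero v g).1 h0)
    have h3 := hD.symm v g
    exact ⟨by omega, hg.1, hg.2, by omega⟩
  have hstep : ∀ g ∈ nb G R v, ∀ w, D v w ≤ D g w + 1 := by
    intro g hg w
    have h1 := hD.lip w v g (hnb1 g hg).2.2.1
    rw [hD.symm w v, hD.symm w g] at h1
    exact h1
  have hcardR : ∀ g ∈ nb G R v, ∀ R' ⊆ R.erase g, R'.card ≤ N := by
    intro g hg R' hR'
    have h1 := Finset.card_le_card hR'
    rw [Finset.card_erase_of_mem (hnb1 g hg).2.1] at h1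
    omega
  refine ⟨?_, ?_, ?_, ?_, ?_, ?_⟩
  · intro g hg
    exact Finset.filter_subset _ _
  · intro g hg hgW
    rw [Finset.mem_sdiff, Finset.mem_filter] at hgW
    apply hgW.2
    refine ⟨hgW.1, ?_⟩
    have h1 := hW g hgW.1
    have h2 := (hnb1 g hg).1
    have h3 : D g g = 0 := (hD.zero g g).2 rfl
    omega
  · intro g hg h hh hgh hhW
    rw [Finset.mem_filter] at hhW
    have h1 := hW h hhW.1
    have h2 := (hnb1 h hh).1
    exact hgh ((hD.zero g h).1 (by omega))
  · intro g hg R' L b c t U' hR' hgR' hSl hSlP ht hU' hU'R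
    refine (claimA hN G D c0 s Δ N k K B (k + 1) ε A hs hε hA hD hk hΔ hεs hBs hI (le_refl _)
      v g (hnb1 g hg).2.2.1 R' (hcardR g hg R' hR') ?_ hgR' L b c t U' hSl hSlP ht hU'R
      ?_).trans hd2
    · intro hvR'
      exact hv (Finset.mem_of_mem_erase (hR' hvR'))
    · intro y hy
      have h1 := hU' hy
      rw [Finset.mem_sdiff, Finset.mem_filter] at h1
      have h2 := hW y h1.1
      have h3 := hstep g hg y
      have h4 : D g y ≠ k := fun h0 => h1.2 ⟨h1.1, h0⟩
      exact ⟨h2, by omega⟩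
  · intro g hg h hh hgh R' L b c t U' hR' hhR' hSl hSlP ht hU' hU'R
    have hsplit : adf U' t = fun σ => adf (U'.filter (fun w => D h w = k)) t σ +
        adf (U'.filter (fun w => ¬ D h w = k)) t σ := by
      funext σ
      unfold adf
      rw [Finset.sum_filter_add_sum_filter_not]
    have hB := claimB hN G D c0 s Δ N k K B ε A hs hε hA hD hk hΔ hεs hBs hI v g h hgh R'
      (hcardR h hh R' hR') hhR' L b c t (U'.filter (fun w => D h w = k)) hSl hSlP ht
      ((Finset.filter_subset _ _).trans hU'R) (by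
        intro y hy
        rw [Finset.mem_filter] at hy
        have h1 := hU' hy.1
        rw [Finset.mem_filter] at h1
        exact ⟨hW y h1.1, h1.2, hy.2⟩)
    have hA' := claimA hN G D c0 s Δ N k K B (k + 1) ε A hs hε hA hD hk hΔ hεs hBs hI
      (le_refl _) v h (hnb1 h hh).2.2.1 R' (hcardR h hh R' hR') (by
        intro hvR'
        exact hv (Finset.mem_of_mem_erase (hR' hvR'))) hhR' L b c t
      (U'.filter (fun w => ¬ D h w = k)) hSl hSlP ht
      ((Finset.filter_subset _ _).trans hU'R) (by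
        intro y hy
        rw [Finset.mem_filter] at hy
        have h1 := hU' hy.1
        rw [Finset.mem_filter] at h1
        have h2 := hW y h1.1
        have h3 := hstep h hh y
        have h4 := hy.2
        exact ⟨h2, by omega⟩)
    rw [hsplit, EE_add', EE_add']
    have h2d : 2 * (((B : ℝ) * ((k : ℝ) + 2) / s) *
      (((k : ℝ) + 1) * (2 + 1 / ε) ^ (k + 1)) * (1 + A)) = 2 * d0 B k s ε A := rfl
    rw [h2d]
    rw [abs_le] at hB hA' ⊢
    constructor
    · linarith [hB.1, hA'.1]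
    · linarith [hB.2, hA'.2]
  · intro g hg R' L b c t U' hR' hgR' hSl hSlP ht hU' hU'R
    refine (claimA hN G D c0 s Δ N k K B 1 ε A hs hε hA hD hk hΔ hεs hBs hI (by omega)
      v g (hnb1 g hg).2.2.1 R' (hcardR g hg R' hR') ?_ hgR' L b c t U' hSl hSlP ht hU'R
      ?_).trans hd2
    · intro hvR'
      exact hv (Finset.mem_of_mem_erase (hR' hvR'))
    · intro y hy
      have h1 := Finset.mem_erase.1 (hU' hy)
      have h2 := (hnb1 y h1.2).1
      have h3 : D g y ≠ 0 := fun h0 => h1.1 ((hD.zero g y).1 h0).symm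
      exact ⟨h2, by omega⟩

end Pool.Agent.Y275.HL
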