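import Pool.Agent.Y992.HL.Stm
import Pool.Agent.W469.UG.Errk
import Pool.Agent.W753.UG.Errz
import Pool.Agent.W405.UG.Osc

/-! Project HL: error terms of the two recursions. -/

set_option autoImplicit false
set_option linter.unusedSectionVars false

namespace Pool.Agent.Y275.HL

open Finset Pool.Agent.H983R2.GC Pool.Agent.W341.UG Pool.Agent.Y992.HL

section

variable {V C : Type} [Fintype V] [DecidableEq V] [Fintype C] [DecidableEq C]

theorem osca (G : SimpleGraph V) (c0 : C) (s : ℕ) (hs : 2 ≤ s) (R : Finset V)
    (L : V → Finset C) (f : V) (W : Finset V) (t : V → C → ℝ) (X : ℝ) (hf : f ∈ R)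
    (hL : Sl G s R L) (hfW : f ∉ W)
    (hyp : ∀ a a', |EE G c0 (R.erase f) (era L (nb G R f) a) (adf W t) -
      EE G c0 (R.erase f) (era L (nb G R f) a') (adf W t)| ≤ X) (a : C) :
    |uu G c0 R L (adf W t) f a| ≤ X := by
  refine Pool.Agent.W405.UG.uu_of_cd G c0 R L f _ X hf
    (col_nonempty G c0 R L (Sl_mono G (by omega) R L hL)) ?_ a
  intro a a'
  have e : ∀ a, (fun τ : V → C => adf W t (Function.update τ f a)) = adf W t := by
    intro a
    funext τ
    unfold adf
    refine Finset.sum_congr rfl fun w hw => ?_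
    have : w ≠ f := fun e => hfW (e ▸ hw)
    rw [Function.update_of_ne this]
  unfold cd
  rw [e a, e a']
  exact hyp a a'

theorem smi_uu (G : SimpleGraph V) (c0 : C) (s : ℕ) (hs : 2 ≤ s) (R : Finset V)
    (L : V → Finset C) (f : V) (U W : Finset V) (t : V → C → ℝ) (δ : ℝ) (hf : f ∈ R)
    (hL : Sl G s R L) (hWU : W ⊆ U) (hfW : f ∉ W) (hWR : W ⊆ R) (ht : Osc t)
    (hS : SmI G c0 s (R.erase f) f U δ) (c : C) :
    |uu G c0 R L (adf W t) f c| ≤ δ := by
  refine osca G c0 s hs R L f W t δ hf hL hfW ?_ c
  intro a a'
  have h := hS (R.erase f) L a a' t W (Finset.Subset.refl _) (Finset.notMem_erase f R)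
    (Sl_del G s R L f hf hL) (SlP_del G s R L f hf hL) ht hWU (by
      intro w hw
      rw [Finset.mem_erase]
      exact ⟨fun e => hfW (e ▸ hw), hWR hw⟩)
  rwa [nb_erase_self] at h

end

section

open Pool.Agent.W469.UG

theorem t_ERRP' (hT : S_TEL) (hP : S_PRB) : S_ERRP' := by
  intro V C _ _ _ _ G c0 s δ hs hδ R L v c W Wg hv hL hLS hBr T hTS i hi hiT
  have hs' : (2 : ℝ) ≤ s := by exact_mod_cast hs
  obtain ⟨hSl, hp0, hp1, hstep⟩ := step_bound hT hP G c0 s hs R L (nb G R v) c
    (nb_subset G R v) hL hLS T hTS i hi hiT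
  set L' := era L T c with hL'
  set p := pr G c0 R L' i c with hp
  obtain ⟨hr0, hr1, _⟩ := ratio_le hs hp0 hp1
  set W' := nb G R v \ insert i T with hW'
  let sg : V → ℝ := fun w =>
    if 0 ≤ pr G c0 R (era L (insert i T) c) w c - pr G c0 R L' w c then 1 else -1
  let t : V → C → ℝ := fun w a => sg w * (if a = c then 1 else 0)
  have hsg : ∀ w, |sg w| = 1 := by
    intro w
    simp only [sg]
    split <;> simp
  have ht : Osc t := by
    intro w a a'
    simp only [t]
    rw [← mul_sub, abs_mul, hsg, one_mul]
    split <;> split <;> simp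
  have hEE : ∀ L'' : V → Finset C, EE G c0 R L'' (adf W' t) =
      ∑ w ∈ W', sg w * pr G c0 R L'' w c := by
    intro L''
    have : adf W' t = fun σ => ∑ w ∈ W', sg w * (if σ w = c then (1 : ℝ) else 0) := rfl
    rw [this, EE_sum]
    refine Finset.sum_congr rfl fun w _ => ?_
    rw [EE_const_mul]
    rfl
  have h1 : ∑ g ∈ W', |pr G c0 R (era L (insert i T) c) g c - pr G c0 R L' g c| =
      EE G c0 R (era L (insert i T) c) (adf W' t) - EE G c0 R L' (adf W' t) := by
    rw [hEE, hEE, ← Finset.sum_sub_distrib]
    refine Finset.sum_congr rfl fun w _ => ?_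
    rw [← mul_sub]
    simp only [sg]
    split
    · rename_i h
      rw [abs_of_nonneg h, one_mul]
    · rename_i h
      rw [abs_of_neg (not_le.1 h)]
      ring
  rw [h1, hstep]
  have hiW : i ∉ W' := by
    rw [hW', Finset.mem_sdiff]
    intro h
    exact h.2 (Finset.mem_insert_self _ _)
  have hW'R : W' ⊆ R := (Finset.sdiff_subset).trans (nb_subset G R v)
  have h2 := smi_uu G c0 s hs R L' i ((nb G R v).erase i) W' t δ (nb_subset G R v hi) hSl (by
      intro w hw
      rw [Finset.mem_erase]
      exact ⟨fun e => hiW (e ▸ hw), (Finset.mem_sdiff.1 hw).1⟩) hiW hW'R ht (hBr.sib i hi) c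
  calc -(p / (1 - p)) * uu G c0 R L' (adf W' t) i c
      ≤ |(-(p / (1 - p))) * uu G c0 R L' (adf W' t) i c| := le_abs_self _
    _ = p / (1 - p) * |uu G c0 R L' (adf W' t) i c| := by
        rw [abs_mul, abs_neg, abs_of_nonneg hr0]
    _ ≤ 1 / (s : ℝ) * δ := by gcongr
    _ = δ / s := by ring

theorem t_ERRK' (hT : S_TEL) (hP : S_PRB) (hU : S_ERRU') (hE : S_ERRP') : S_ERRK' := by
  intro V C _ _ _ _ G c0 s δ hs hδ R L v c W Wg t M hv hL hLS hW ht hBr hM hu
  have hs' : (2 : ℝ) ≤ s := by exact_mod_cast hs
  have hs0 : (0 : ℝ) < s := by linarith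
  set S := nb G R v with hS
  have hSR : S ⊆ R := nb_subset G R v
  set κ : ℝ := (S.card : ℝ) / s with hκ
  have hκ0 : 0 ≤ κ := by positivity
  set p : V → ℝ := fun g => pr G c0 R L g c with hp
  set u : V → ℝ := fun g => uu G c0 R L (adf (Wg g) t) g c with hudef
  have hpb : ∀ g ∈ S, 0 ≤ p g ∧ p g ≤ 1 / ((s : ℝ) + 1) := by
    intro g hg
    have h := step_bound hT hP G c0 s hs R L S c hSR hL hLS ∅ (Finset.empty_subset _) g hg
      (Finset.notMem_empty _)
    rw [era_empty] at h
    exact ⟨h.2.1, h.2.2.1⟩
  have key : ∀ T ⊆ S,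
      |EE G c0 R (era L T c) (adf W t) - EE G c0 R L (adf W t) +
        ∑ g ∈ T, p g / (1 - p g) * u g| +
        4 * M * ∑ g ∈ S \ T, |pr G c0 R (era L T c) g c - p g| ≤
      (T.card : ℝ) * (δ / s * (1 + 2 * κ + 4 * M)) := by
    intro T
    induction T using Finset.induction_on with
    | empty =>
      intro _
      rw [era_empty]
      simp [hp]
    | insert g T hgT ih =>
      intro hTS
      have hgS : g ∈ S := hTS (Finset.mem_insert_self _ _)
      have hTS' : T ⊆ S := (Finset.subset_insert g T).trans hTS
      have ih := ih hTS'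
      obtain ⟨hSl, hq0, hq1, hstep⟩ := step_bound hT hP G c0 s hs R L S c hSR hL hLS T hTS' g
        hgS hgT
      set q := pr G c0 R (era L T c) g c with hq
      obtain ⟨hr0, hr1, hq3⟩ := ratio_le hs hq0 hq1
      obtain ⟨hp0, hp1⟩ := hpb g hgS
      obtain ⟨_, _, hp3⟩ := ratio_le hs hp0 hp1
      -- splitting of the function
      have hsplit : adf W t = fun σ => adf (Wg g) t σ + adf (W \ Wg g) t σ := by
        funext σ
        unfold adf
        rw [add_comm, Finset.sum_sdiff (hBr.sub g hgS)]
      set U1 := uu G c0 R (era L T c) (adf (Wg g) t) g c with hU1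
      set U2 := uu G c0 R (era L T c) (adf (W \ Wg g) t) g c with hU2
      have hUU : uu G c0 R (era L T c) (adf W t) g c = U1 + U2 := by
        conv_lhs => rw [hsplit]
        rw [uu_add]
      have hgW : g ∉ W \ Wg g := hBr.slf g hgS
      have hU2b : |U2| ≤ δ :=
        smi_uu G c0 s hs R (era L T c) g (W \ Wg g) (W \ Wg g) t δ (hSR hgS) hSl
          (Finset.Subset.refl _) hgW ((Finset.sdiff_subset).trans hW) ht (hBr.far g hgS) c
      have hU1b : |U1 - u g| ≤ 2 * κ * δ := by
        have h1 := hU V C G c0 s δ hs hδ R L v c W Wg t hv hL hLS hW ht hBr g hgS T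
          (by
            intro w hw
            rw [Finset.mem_erase]
            exact ⟨fun e => hgT (e ▸ hw), hTS' hw⟩)
        refine h1.trans ?_
        have h2 : (T.card : ℝ) ≤ S.card := by exact_mod_cast Finset.card_le_card hTS'
        rw [hκ]
        gcongr
      have hub : |u g| ≤ M := hu g hgS
      have hsumP := hE V C G c0 s δ hs hδ R L v c W Wg hv hL hLS hBr T hTS' g hgS hgT
      -- the first term
      have e1 : EE G c0 R (era L (insert g T) c) (adf W t) - EE G c0 R L (adf W t) +
          ∑ h ∈ insert g T, p h / (1 - p h) * u h =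
          (EE G c0 R (era L T c) (adf W t) - EE G c0 R L (adf W t) +
            ∑ h ∈ T, p h / (1 - p h) * u h) +
          ((p g / (1 - p g) - q / (1 - q)) * u g - q / (1 - q) * (U1 - u g) -
            q / (1 - q) * U2) := by
        rw [Finset.sum_insert hgT]
        have h1 := hstep (adf W t)
        rw [hUU] at h1
        linear_combination h1
      have e2 : |(p g / (1 - p g) - q / (1 - q)) * u g - q / (1 - q) * (U1 - u g) -
            q / (1 - q) * U2| ≤ 4 * |q - p g| * M + 1 / (s : ℝ) * (2 * κ * δ) +
              1 / (s : ℝ) * δ := by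
        have a1 : |(p g / (1 - p g) - q / (1 - q)) * u g| ≤ 4 * |q - p g| * M := by
          rw [abs_mul]
          have := diff_ratio hp0 hq0 hp3 hq3
          gcongr
        have a2 : |q / (1 - q) * (U1 - u g)| ≤ 1 / (s : ℝ) * (2 * κ * δ) := by
          rw [abs_mul, abs_of_nonneg hr0]
          gcongr
        have a3 : |q / (1 - q) * U2| ≤ 1 / (s : ℝ) * δ := by
          rw [abs_mul, abs_of_nonneg hr0]
          gcongr
        refine (abs_sub _ _).trans ?_
        refine (add_le_add_left (abs_sub _ _) _).trans ?_
        linarith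
      -- the second term
      have e3 : ∑ h ∈ S \ insert g T, |pr G c0 R (era L (insert g T) c) h c - p h| +
          |q - p g| ≤ δ / s + ∑ h ∈ S \ T, |pr G c0 R (era L T c) h c - p h| := by
        have b1 : ∑ h ∈ S \ T, |pr G c0 R (era L T c) h c - p h| =
            |q - p g| + ∑ h ∈ S \ insert g T, |pr G c0 R (era L T c) h c - p h| := by
          have hset : S \ T = insert g (S \ insert g T) := by
            ext w
            simp only [Finset.mem_sdiff, Finset.mem_insert]
            constructor
            · rintro ⟨h1, h2⟩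
              by_cases hw : w = g
              · exact Or.inl hw
              · exact Or.inr ⟨h1, fun h3 => h3.elim hw h2⟩
            · rintro (rfl | ⟨h1, h2⟩)
              · exact ⟨hgS, hgT⟩
              · exact ⟨h1, fun h3 => h2 (Or.inr h3)⟩
          rw [hset, Finset.sum_insert (by simp)]
        have b2 : ∑ h ∈ S \ insert g T, |pr G c0 R (era L (insert g T) c) h c - p h| ≤
            ∑ h ∈ S \ insert g T, |pr G c0 R (era L (insert g T) c) h c -
              pr G c0 R (era L T c) h c| +
            ∑ h ∈ S \ insert g T, |pr G c0 R (era L T c) h c - p h| := by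
          rw [← Finset.sum_add_distrib]
          refine Finset.sum_le_sum fun h _ => ?_
          exact abs_sub_le _ _ _
        rw [b1]
        linarith
      rw [e1, Finset.card_insert_of_notMem hgT]
      push_cast
      have e4 := (abs_add_le (EE G c0 R (era L T c) (adf W t) - EE G c0 R L (adf W t) +
            ∑ h ∈ T, p h / (1 - p h) * u h) ((p g / (1 - p g) - q / (1 - q)) * u g -
              q / (1 - q) * (U1 - u g) - q / (1 - q) * U2))
      have e5 : 4 * M * (∑ h ∈ S \ insert g T, |pr G c0 R (era L (insert g T) c) h c - p h| +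
          |q - p g|) ≤ 4 * M * (δ / s + ∑ h ∈ S \ T, |pr G c0 R (era L T c) h c - p h|) := by
        gcongr
      have e6 : 1 / (s : ℝ) * (2 * κ * δ) + 1 / (s : ℝ) * δ + 4 * M * (δ / s) =
          δ / s * (1 + 2 * κ + 4 * M) := by
        field_simp
        ring
      nlinarith
  have hfin := key S (Finset.Subset.refl S)
  rw [Finset.sdiff_self, Finset.sum_empty, mul_zero, add_zero] at hfin
  refine hfin.trans (le_of_eq ?_)
  rw [hκ]
  ring

end

section

open Pool.Agent.W753.UG

theorem t_ERRZ' (hT : S_TEL) (hP : S_PRB) (hE : S_ERRP') : S_ERRZ' := by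
  intro V C _ _ _ _ G c0 s δ hs hδ R L v c W Wg hv hSl hSlP hBr
  set S := nb G R v with hS
  have hSR : S ⊆ R := nb_subset G R v
  have hs0 : (0 : ℝ) < s := by
    have : 0 < s := by omega
    exact_mod_cast this
  have hne : (Col G c0 R L).Nonempty :=
    col_nonempty G c0 R L (Sl_mono G (by omega) R L hSl)
  have hcard : (0 : ℝ) < ((Col G c0 R L).card : ℝ) := by
    exact_mod_cast Finset.card_pos.2 hne
  have key : ∀ T : Finset V, T ⊆ S →
      Real.exp (-((1 + 1 / (s : ℝ)) * (∑ g ∈ T, pr G c0 R L g c +
        Et G c0 R S L c (δ / s) T))) ≤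
        ((Col G c0 R (era L T c)).card : ℝ) / ((Col G c0 R L).card : ℝ) ∧
      ((Col G c0 R (era L T c)).card : ℝ) / ((Col G c0 R L).card : ℝ) ≤
        Real.exp (-(∑ g ∈ T, pr G c0 R L g c) + Et G c0 R S L c (δ / s) T) := by
    intro T
    induction T using Finset.induction_on with
    | empty =>
      intro _
      have hE0 : Et G c0 R S L c (δ / s) ∅ = 0 := by
        unfold Et
        rw [era_empty]
        simp
      rw [hE0, era_empty, div_self hcard.ne']
      simp
    | insert g T hg ih =>
      intro hsub
      have hTS : T ⊆ S := fun x hx => hsub (Finset.mem_insert_of_mem hx)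
      have hgS : g ∈ S := hsub (Finset.mem_insert_self g T)
      have hgR : g ∈ R := hSR hgS
      obtain ⟨ih1, ih2⟩ := ih hTS
      have hSlT : Sl G s R (era L T c) :=
        Sl_era G s R T L c hSl (fun w hw => hSlP w (hTS hw))
      set q := pr G c0 R (era L T c) g c with hq
      have hq0 : 0 ≤ q := pr_nonneg G c0 R _ g c
      have hq1 : q ≤ 1 / ((s : ℝ) + 1) := by
        have := hP V C G c0 R (era L T c) g c (s + 1) (by omega) hgR (by
          rw [era_not_mem L T c g hg]
          have := hSlP g hgS
          omega)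
        rw [hq]
        simpa using this
      have hq2 : q < 1 := lt_of_le_of_lt hq1 (by
        rw [div_lt_one (by positivity)]
        linarith)
      have htel := (hT V C G c0 R (era L T c) g c hgR (Sl_mono G hs R _ hSlT) hq2).2
      rw [era_insert L T g c hg] at htel
      have hZ : ((Col G c0 R (era L (insert g T) c)).card : ℝ) / ((Col G c0 R L).card : ℝ) =
          ((Col G c0 R (era L T c)).card : ℝ) / ((Col G c0 R L).card : ℝ) * (1 - q) := by
        rw [htel]
        ring
      have herr := hE V C G c0 s δ hs hδ R L v c W Wg hv hSl hSlP hBr T hTS g hgS hg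
      -- the error term grows
      have hEt : Et G c0 R S L c (δ / s) T + |q - pr G c0 R L g c| ≤
          Et G c0 R S L c (δ / s) (insert g T) := by
        have hsd : S \ T = insert g (S \ insert g T) := by
          ext x
          simp only [Finset.mem_sdiff, Finset.mem_insert]
          constructor
          · rintro ⟨h1, h2⟩
            by_cases hx : x = g
            · exact Or.inl hx
            · exact Or.inr ⟨h1, by tauto⟩
          · rintro (h1 | ⟨h1, h2⟩)
            · rw [h1]; exact ⟨hgS, hg⟩
            · exact ⟨h1, fun h3 => h2 (Or.inr h3)⟩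
        have hnot : g ∉ S \ insert g T := by simp
        have h1 : Et G c0 R S L c (δ / s) T = (T.card : ℝ) * (δ / s) -
            (|q - pr G c0 R L g c| +
              ∑ h ∈ S \ insert g T, |pr G c0 R (era L T c) h c - pr G c0 R L h c|) := by
          unfold Et
          rw [hsd, Finset.sum_insert hnot]
        have h2 : Et G c0 R S L c (δ / s) (insert g T) = ((T.card : ℝ) + 1) * (δ / s) -
            ∑ h ∈ S \ insert g T,
              |pr G c0 R (era L (insert g T) c) h c - pr G c0 R L h c| := by
          unfold Et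
          rw [Finset.card_insert_of_notMem hg]
          push_cast
          rfl
        have h3 : ∑ h ∈ S \ insert g T,
              |pr G c0 R (era L (insert g T) c) h c - pr G c0 R L h c| ≤
            ∑ h ∈ S \ insert g T,
              |pr G c0 R (era L (insert g T) c) h c - pr G c0 R (era L T c) h c| +
            ∑ h ∈ S \ insert g T, |pr G c0 R (era L T c) h c - pr G c0 R L h c| := by
          rw [← Finset.sum_add_distrib]
          exact Finset.sum_le_sum fun h _ => abs_sub_le _ _ _
        rw [h1, h2]
        have h4 : ((T.card : ℝ) + 1) * (δ / s) = (T.card : ℝ) * (δ / s) + δ / s := by ring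
        linarith
      have habs1 : -q ≤ -pr G c0 R L g c + |q - pr G c0 R L g c| := by
        have := neg_abs_le (q - pr G c0 R L g c)
        linarith
      have habs2 : q ≤ pr G c0 R L g c + |q - pr G c0 R L g c| := by
        have := le_abs_self (q - pr G c0 R L g c)
        linarith
      rw [hZ, Finset.sum_insert hg]
      have hs1 : (0 : ℝ) ≤ 1 + 1 / (s : ℝ) := by positivity
      constructor
      · have e1 := exp_low hs hq0 hq1
        calc Real.exp (-((1 + 1 / (s : ℝ)) * (pr G c0 R L g c + ∑ x ∈ T, pr G c0 R L x c +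
              Et G c0 R S L c (δ / s) (insert g T))))
            ≤ Real.exp (-((1 + 1 / (s : ℝ)) * (∑ x ∈ T, pr G c0 R L x c +
                Et G c0 R S L c (δ / s) T)) + -((1 + 1 / (s : ℝ)) * q)) := by
              refine Real.exp_le_exp.2 ?_
              have e2 : (1 + 1 / (s : ℝ)) * (∑ x ∈ T, pr G c0 R L x c +
                  Et G c0 R S L c (δ / s) T + q) ≤ (1 + 1 / (s : ℝ)) *
                  (pr G c0 R L g c + ∑ x ∈ T, pr G c0 R L x c +
                  Et G c0 R S L c (δ / s) (insert g T)) :=
                mul_le_mul_of_nonneg_left (by linarith) hs1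
              have e3 : (1 + 1 / (s : ℝ)) * (∑ x ∈ T, pr G c0 R L x c +
                  Et G c0 R S L c (δ / s) T + q) = (1 + 1 / (s : ℝ)) *
                  (∑ x ∈ T, pr G c0 R L x c + Et G c0 R S L c (δ / s) T) +
                  (1 + 1 / (s : ℝ)) * q := by ring
              linarith
          _ = Real.exp (-((1 + 1 / (s : ℝ)) * (∑ x ∈ T, pr G c0 R L x c +
                Et G c0 R S L c (δ / s) T))) * Real.exp (-((1 + 1 / (s : ℝ)) * q)) :=
              Real.exp_add _ _
          _ ≤ _ := mul_le_mul ih1 e1 (Real.exp_pos _).le (by positivity)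
      · have e1 : 1 - q ≤ Real.exp (-q) := by
          have := Real.add_one_le_exp (-q)
          linarith
        calc ((Col G c0 R (era L T c)).card : ℝ) / ((Col G c0 R L).card : ℝ) * (1 - q)
            ≤ Real.exp (-(∑ x ∈ T, pr G c0 R L x c) + Et G c0 R S L c (δ / s) T) *
                Real.exp (-q) :=
              mul_le_mul ih2 e1 (by linarith) (Real.exp_pos _).le
          _ = Real.exp (-(∑ x ∈ T, pr G c0 R L x c) + Et G c0 R S L c (δ / s) T + -q) :=
              (Real.exp_add _ _).symm
          _ ≤ _ := by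
              refine Real.exp_le_exp.2 ?_
              linarith
  obtain ⟨h1, h2⟩ := key S (Finset.Subset.refl S)
  have hES : Et G c0 R S L c (δ / s) S = (S.card : ℝ) / s * δ := by
    unfold Et
    rw [Finset.sdiff_self, Finset.sum_empty, sub_zero]
    ring
  rw [hES] at h1 h2
  exact ⟨h1, h2⟩

end

end Pool.Agent.Y275.HL
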